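import Pool.Agent.H52.ST1

set_option autoImplicit false

namespace Pool.Agent.Results.MP_982b0b_ag.MixedFace

open MvPolynomial

/-- Real polynomials in the homogeneous coordinates of projective `n`-space. -/
abbrev Poly (n : ℕ) := MvPolynomial (Fin (n + 1)) ℝ

/-- The non-zero real vectors representing the real points of the variety of `I`. -/
def Pts {n : ℕ} (I : Ideal (Poly n)) : Set (Fin (n + 1) → ℝ) :=
  {v | v ≠ 0 ∧ ∀ f ∈ I, eval v f = 0}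

/-- `I` is the ideal of a totally real projective variety: it is homogeneous and contains every
polynomial vanishing at all its real points (radical, with Zariski dense real points). -/
def TotReal {n : ℕ} (I : Ideal (Poly n)) : Prop :=
  (∀ f ∈ I, ∀ m, homogeneousComponent m f ∈ I) ∧
    ∀ f : Poly n, (∀ v ∈ Pts I, eval v f = 0) → f ∈ I

/-- The degree `m` part of the homogeneous coordinate ring, as functions on the real points. -/
def Forms {n : ℕ} (I : Ideal (Poly n)) (m : ℕ) : Set (Pts I → ℝ) :=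
  {φ | ∃ f : Poly n, f.IsHomogeneous m ∧ ∀ v, φ v = eval v.1 f}

/-- The cone of nonnegative quadrics. -/
def P {n : ℕ} (I : Ideal (Poly n)) : Set (Pts I → ℝ) := {φ | φ ∈ Forms I 2 ∧ ∀ v, 0 ≤ φ v}

/-- No odd power of the quadric `φ` is a sum of squares in the coordinate ring. -/
def Stubborn {n : ℕ} (I : Ideal (Poly n)) (φ : Pts I → ℝ) : Prop :=
  ∀ k, Odd k → ¬ ∃ (r : ℕ) (G : Fin r → Pts I → ℝ), (∀ i, G i ∈ Forms I k) ∧ φ ^ k = ∑ i, G i ^ 2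

/-- the real points of the quintic surface -/
def S : Set (Fin 4 → ℝ) :=
  {v | v ≠ 0 ∧ v 3 ^ 2 * (v 0 ^ 3 + v 2 * (v 0 ^ 2 + v 1 ^ 2)) + v 2 ^ 5 = 0}

/-- its vanishing ideal -/
def J : Ideal (Poly 3) where
  carrier := {f | ∀ v ∈ S, eval v f = 0}
  add_mem' := fun hf hg v hv => by rw [map_add, hf v hv, hg v hv, add_zero]
  zero_mem' := fun v _ => map_zero _
  smul_mem' := fun c f hf v hv => by rw [smul_eq_mul, map_mul, hf v hv, mul_zero]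

lemma pts (v : Fin 4 → ℝ) : v ∈ Pts J ↔ v ∈ S := by
  refine ⟨fun h => ⟨h.1, ?_⟩, fun h => ⟨h.1, fun f hf => hf v h⟩⟩
  have := h.2 (X 3 ^ 2 * (X 0 ^ 3 + X 2 * (X 0 ^ 2 + X 1 ^ 2)) + X 2 ^ 5)
    fun u hu => by
      simp only [map_add, map_mul, map_pow, eval_X]
      exact hu.2
  simp only [map_add, map_mul, map_pow, eval_X] at this
  exact this

lemma bd (v : Fin 4 → ℝ) (h : v ∈ S) : v 2 ^ 2 ≤ v 0 ^ 2 := by
  by_contra hc
  push Not at hc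
  have e := h.2
  have h1 : 0 ≤ v 2 ^ 2 + v 2 * v 0 := by nlinarith [sq_nonneg (v 2 + v 0)]
  have h2 : 0 < v 2 ^ 2 := lt_of_le_of_lt (sq_nonneg _) hc
  have h3 : 0 ≤ v 3 ^ 2 * (v 0 ^ 2 * (v 2 ^ 2 + v 2 * v 0) + v 2 ^ 2 * v 1 ^ 2) := by positivity
  have h4 : 0 < (v 2 ^ 2) ^ 3 := by positivity
  have : v 3 ^ 2 * (v 0 ^ 2 * (v 2 ^ 2 + v 2 * v 0) + v 2 ^ 2 * v 1 ^ 2) + (v 2 ^ 2) ^ 3 = 0 := by
    linear_combination v 2 * e
  linarith

/-- evaluation as a linear map to functions -/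
noncomputable def E : Poly 3 →ₗ[ℝ] (Pts J → ℝ) where
  toFun f v := eval v.1 f
  map_add' f g := by funext v; simp
  map_smul' c f := by funext v; simp

theorem result : ∃ (n : ℕ) (I : Ideal (Poly n)) (F : Set (Pts I → ℝ)),
    TotReal I ∧ Convex ℝ F ∧ IsExtreme ℝ (P I) F ∧
      ∃ φ ∈ intrinsicInterior ℝ F, ∃ ψ ∈ intrinsicInterior ℝ F,
        Stubborn I φ ∧ ¬ Stubborn I ψ := by
  let V : Submodule ℝ (Pts J → ℝ) := (homogeneousSubmodule (Fin 4) ℝ 2).map E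
  have : FiniteDimensional ℝ V :=
    Module.Finite.iff_fg.2 ((homogeneousSubmodule_fg (σ := Fin 4) (R := ℝ) 2).map E)
  have hV : ∀ φ, φ ∈ Forms J 2 ↔ φ ∈ V := fun φ =>
    ⟨fun ⟨f, h1, h2⟩ => ⟨f, h1, (funext h2).symm⟩, fun ⟨f, h1, h2⟩ => ⟨f, h1, fun v => h2 ▸ rfl⟩⟩
  let q : Pts J → ℝ := fun v => v.1 0 ^ 2 + v.1 1 ^ 2 + v.1 2 ^ 2
  have hq : ∀ v, 0 ≤ q v := fun v => by positivity
  have hX : ∀ i : Fin 4, (X i ^ 2 : Poly 3).IsHomogeneous 2 := fun i => isHomogeneous_X_pow i 2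
  refine ⟨3, J, {ψ | (ψ ∈ V ∧ ∀ v, 0 ≤ ψ v) ∧ ∃ c, ∀ v, ψ v ≤ c * q v}, ⟨?_, ?_⟩, ?_, ⟨?_, ?_⟩,
    fun v => 2 * v.1 0 ^ 2 + v.1 1 ^ 2 - v.1 2 ^ 2, ?_, q, ?_, ?_, ?_⟩
  · intro f hf m v hv
    refine H52.ST.comp_zero f v (fun t ht => hf _ ⟨smul_ne_zero ht hv.1, ?_⟩) m
    simp only [Pi.smul_apply, smul_eq_mul]
    linear_combination t ^ 5 * hv.2
  · exact fun f hf v hv => hf v ((pts v).2 hv)
  · rintro p ⟨⟨p1, p2⟩, c, p3⟩ r ⟨⟨r1, r2⟩, e, r3⟩ a b ha hb -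
    refine ⟨⟨V.add_mem (V.smul_mem a p1) (V.smul_mem b r1), fun v => ?_⟩, a * c + b * e,
      fun v => ?_⟩
    · exact add_nonneg (mul_nonneg ha (p2 v)) (mul_nonneg hb (r2 v))
    · change a * p v + b * r v ≤ _
      nlinarith [mul_le_mul_of_nonneg_left (p3 v) ha, mul_le_mul_of_nonneg_left (r3 v) hb]
  · exact fun p hp => ⟨(hV p).2 hp.1.1, hp.1.2⟩
  · rintro p ⟨p1, p2⟩ r ⟨-, r2⟩ z ⟨-, c, hc⟩ ⟨a, b, ha, hb, -, rfl⟩
    refine ⟨⟨(hV p).1 p1, p2⟩, c / a, fun v => ?_⟩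
    have h1 : a * p v + b * r v ≤ c * q v := hc v
    rw [div_mul_eq_mul_div, le_div_iff₀ ha]
    nlinarith [mul_nonneg hb.le (r2 v)]
  · refine H52.ST.relint V q _ hq ((hV _).1 ⟨X 0 ^ 2 + X 0 ^ 2 + X 1 ^ 2 - X 2 ^ 2,
      (((hX 0).add (hX 0)).add (hX 1)).sub (hX 2), fun v => by simp; ring⟩)
      (a := 1 / 2) (b := 2) (by norm_num) (fun v => ?_) fun v => ?_
    · have := bd v.1 ((pts _).1 v.2)
      simp only [q]
      nlinarith [sq_nonneg (v.1 1)]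
    · simp only [q]
      nlinarith [sq_nonneg (v.1 1), sq_nonneg (v.1 2)]
  · exact H52.ST.relint V q _ hq ((hV _).1 ⟨X 0 ^ 2 + X 1 ^ 2 + X 2 ^ 2,
      ((hX 0).add (hX 1)).add (hX 2), fun v => by simp [q]⟩)
      (a := 1) (b := 1) one_pos (fun v => by simp) fun v => by simp
  · rintro k hk ⟨r, G, hG, e⟩
    choose f _ hf using hG
    refine H52.ST.stub k hk (fun i => H52.ST.tr (f i)) fun x y w h => ?_
    have hv : ![x, y, 1, w] ∈ Pts J := (pts _).2 ⟨fun h0 => by simpa using congrFun h0 2, by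
      change w ^ 2 * (x ^ 3 + 1 * (x ^ 2 + y ^ 2)) + 1 ^ 5 = 0
      linear_combination h⟩
    have := congrFun e ⟨_, hv⟩
    simp only [Pi.pow_apply, Finset.sum_apply, hf] at this
    simp only [H52.ST.ev_tr]
    rw [← this]
    change _ = (2 * x ^ 2 + y ^ 2 - 1 ^ 2) ^ k
    rw [one_pow]
  · refine fun h => h 1 odd_one ⟨3, fun i v => v.1 i.castSucc, fun i =>
      ⟨X i.castSucc, isHomogeneous_X _ _, fun v => by simp⟩, ?_⟩
    funext v
    simp [q, Fin.sum_univ_three]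

end Pool.Agent.Results.MP_982b0b_ag.MixedFace
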